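import Pool.Agent.Y618.EF.Weak

set_option autoImplicit false

/-!
# Relations reducible to quasi-isomorphism of torsion-free abelian groups of finite rank

Definitions. `S_n = Sn n` is the standard Borel space of the subgroups of rank `n` of `ℚ ^ n`,
`IsoRel n` is isomorphism on `S_n`, `EssFree E` says that `E` is Borel bireducible with the orbit
equivalence relation of a free Borel action of a countable group on a standard Borel space.
`FinTup m` is the standard Borel space of the `m`-tuples of subgroups of `ℚ ^ (ℕ)` contained in
`ℚ ^ n` for some `n`, and `QIsoT` is quasi-isomorphism of such tuples, by linear maps `F`, `H` with
`F A_i ⊆ B_i`, `H B_i ⊆ A_i`, `H F = k` on `A_i` and `F H = k` on `B_i` for some `k ≠ 0`.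

The theorem: the isomorphism relation of torsion-free abelian groups of rank `n` is essentially
free for every `n`. More generally every Borel equivalence relation is essentially free which has a
Borel homomorphism to quasi-isomorphism of tuples that is injective on classes up to a Borel label
in `ℕ`. Examples: quasi-isomorphism itself, isomorphism on the space of all torsion-free abelian
groups of finite rank (all ranks at once), isomorphism of groups with finitely many distinguished
subgroups, with distinguished elements or endomorphisms, torsion-free rings of finite rank.

Idea of the proof. Let `D` be the algebra of quasi-endomorphisms of a tuple of subgroups of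
`ℚ ^ n`. Its unit group `U` is the group of quasi-automorphisms, and quasi-isomorphisms between
tuples with the algebra `D` are in the normaliser `N` of `U`. So the class modulo `U` of the
quasi-isomorphism is a cocycle with values in `N / U`, trivial only within quasi-equality. Within
a quasi-equality class the tuple is determined by the tuples of lattices `Λ_q(A_i)` for all primes
`q`; the `U`-orbits of these (with the standard lattice added) are labels in a countable set on
which `N / U` acts, quasi-isomorphic tuples have corresponding labels for almost all `q`, and for
almost all `q` the label determines the tuple of lattices. The difference of the labels gives the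
cocycle with values in a semidirect product which separates the points. The quasi-isomorphism
classes are enumerated by countably many Borel maps `A ↦ k g A + ⟨F⟩`, so that a relation as in the
theorem is the orbit relation of a countable group (Lusin and Souslin, Feldman and Moore).
-/

namespace Pool.Agent.Results.MP_98674e_lc.QuasiIsomorphism

open Pool.Agent.H418R3.EF Pool.Agent.Y618.EF

/-- Isomorphism of torsion-free abelian groups of rank `n` is essentially free for every `n`; more
generally every Borel equivalence relation which reduces weakly to quasi-isomorphism of tuples of
torsion-free abelian groups of finite rank is essentially free. -/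
theorem result :
    (∀ n : ℕ, EssFree (IsoRel n)) ∧
    ∀ (m : ℕ) (Z : Type) [MeasurableSpace Z] [StandardBorelSpace Z] (E : Z → Z → Prop),
      Equivalence E → MeasurableSet {p : Z × Z | E p.1 p.2} →
      ∀ (f : Z → FinTup m) (c : Z → ℕ), Measurable f → Measurable c →
        (∀ x y, E x y → QIsoT (f x) (f y)) →
        (∀ x y, E x y → f x = f y → c x = c y → x = y) → EssFree E :=
  ⟨essFree_iso, fun m Z _ _ E hE hEm f c hf hc h1 h2 =>
    essFree_weak m Z E hE hEm f c hf hc h1 h2⟩

end Pool.Agent.Results.MP_98674e_lc.QuasiIsomorphism
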